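import Pool.Agent.H99.Trap.Final

namespace Pool.Agent.Results.MP_f8dce5_pr.NotDiffusive

open Pool.Agent.H99.Trap

/-- In dimension 3, for all trap densities, jump rates and killing rates, the invariance
principle under the annealed path measure fails for every diffusion constant. -/
theorem result : ∀ ν κ ρ γ : ℝ, 0 < ν → 0 < κ → 0 < ρ → 0 < γ →
    ¬ ∃ σ : ℝ, 0 < σ ∧ InvariancePrinciple 3 ν κ ρ γ σ :=
  fun _ _ _ _ hν hκ hρ hγ => no_invariance_principle hν hκ hρ hγ

end Pool.Agent.Results.MP_f8dce5_pr.NotDiffusive
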